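import Pool.Agent.H38.EM.MSZ6

/-!
# Row MSZ of the board `emd_modules`: the model bound
-/

set_option autoImplicit false

namespace Pool.Agent.H38.EM

open scoped BigOperators ComplexConjugate ContDiff ComplexOrder
open MeasureTheory Pool.Agent.H92.EQ Pool.Agent.H92.EM

noncomputable section

/-- the model bound on the unit sphere -/
theorem msz_core (hMBU : T_MBU) (hMSA : T_MSA) (hMSB : T_MSB) (hMSC : T_MSC) (hMSD : T_MSD)
    (hMSE : T_MSE) (hRDA : Pool.Agent.H92.EHD.T_RDA) (hD13 : T_D13) (hD5 : T_D5) (hD6 : T_D6)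
    (hD7 : T_D7) (hL5 : T_L5) (m k s q : ℕ) (κ : ℝ) (hm : m ≤ k + 1) (hk : s + 1 + q = k) :
    ∃ C : ℝ, 0 < C ∧
    ∀ (S : Form (Fin (k + 1)) (s + 1)) (A : ℝ), 0 ≤ A → ProjForm S → InK (Zk m κ) S →
    LM m q S A → mass q S = mass q (om (k + 1) (s + 1)) →
    ∃ (n : ℕ) (b : Fin n → Fin (k + 1)) (δ c : Fin n → ℝ),
    (∀ r, (b r : ℕ) < m ∧ 0 < δ r ∧ δ r ≤ 1 ∧ 0 ≤ c r) ∧ ∑ r, c r ≤ C ∧
    ∑ r, c r * Real.log (1 / δ r) ≤ C * (1 + A) ∧
    ∀ y : Fin (k + 1) → ℂ, nsq y = 1 → (∀ i : Fin (k + 1), (i : ℕ) < m → y i ≠ 0) →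
      Psd (fun I J => (C : ℂ) * om (k + 1) (s + 1) y I J +
        ∑ r, (c r : ℂ) * TF s (b r) (δ r) y I J - avS m S y I J) := by
  classical
  obtain ⟨CR, hCR, hR⟩ := hRDA (k + 1) (s + 1) (by omega)
  obtain ⟨CA, hCA, hA⟩ := hMSA (k + 1) s (by omega)
  obtain ⟨CC, hCC, hC⟩ := hMSC k (s + 1)
  obtain ⟨CE, hCE, hE⟩ := hMSE m k s q hk
  obtain ⟨ε, hε⟩ : ∃ ε, ε = Real.exp (-(max κ 0 + 1)) := ⟨_, rfl⟩
  have hε0 : 0 < ε := by rw [hε]; exact Real.exp_pos _
  have hε1 : ε ≤ 1 / 2 := by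
    have h1 : ε ≤ Real.exp (-1) := by
      rw [hε]
      apply Real.exp_le_exp.2
      have := le_max_right κ 0
      linarith
    have h2 : (2 : ℝ) ≤ Real.exp 1 := by
      have := Real.add_one_le_exp (1 : ℝ)
      linarith
    rw [Real.exp_neg] at h1
    refine h1.trans ?_
    rw [one_div]
    exact inv_anti₀ (by norm_num) h2
  obtain ⟨C1, c1, hC1, hc1, hb⟩ := tr_bounds hMBU hMSB hMSC hMSD hD13 m k s q hk ε hε0
  obtain ⟨M, hMd⟩ : ∃ M, M = mass q (om (k + 1) (s + 1)) := ⟨_, rfl⟩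
  have hM : 0 < M := by rw [hMd]; exact ((hD7 (k + 1) (s + 1)).2 q (by omega)).1
  have hm0 : (0 : ℝ) ≤ m := Nat.cast_nonneg m
  obtain ⟨a, ha⟩ : ∃ a, a = CA * c1 := ⟨_, rfl⟩
  have ha0 : 0 ≤ a := by rw [ha]; positivity
  refine ⟨(CR + CA) * (C1 * M) + m * (a * (4 * (C1 * M)) + a * CE + 2) + 1, by positivity, ?_⟩
  intro S A hA0 hS hK hLM hmass
  rw [← hMd] at hmass
  obtain ⟨hsh, hy⟩ := hb S hS (by rw [hmass]; exact hM.le)
  rw [hmass] at hsh
  obtain ⟨B, hB0, hB⟩ := tr_sup (m := m) hMBU hS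
  obtain ⟨L, hL⟩ := choose_L (CA * (CC * B)) (by positivity)
  obtain ⟨c', hc'⟩ : ∃ c', c' = CA * (CC * B) * ((1 / 2 : ℝ) ^ L) ^ 2 := ⟨_, rfl⟩
  rw [← hc'] at hL
  have hc'0 : 0 ≤ c' := by rw [hc']; positivity
  have hcN0 : ∀ b l, 0 ≤ cN S a c' L b l := by
    intro b l
    unfold cN
    split_ifs
    · exact mul_nonneg ha0 (gS_nonneg S b l)
    · exact hc'0
  -- the sums
  have hsum : ∀ b : Fin (k + 1), (b : ℕ) < m →
      ∑ l : Fin (L + 1), cN S a c' L b l ≤ a * (4 * (C1 * M)) + 1 ∧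
      ∑ l : Fin (L + 1), cN S a c' L b l * Real.log (1 / (1 / 2 : ℝ) ^ (l : ℕ)) ≤
        a * (CE * (1 + A)) + 1 := by
    intro b hbm
    refine cN_sum ha0 hc'0 hL b (gS_sum hS (by positivity) hsh b L) ?_
    exact gS_wsum (by positivity) hsh b L (hE S A hA0 hS hLM (by rw [hmass, hMd]) b L hbm)
  have hcast : ∀ i : Fin m, ((Fin.castLE hm i : Fin (k + 1)) : ℕ) < m := fun i => i.2
  refine ⟨m * (L + 1), fun r => Fin.castLE hm (finProdFinEquiv.symm r).1,
    fun r => (1 / 2 : ℝ) ^ ((finProdFinEquiv.symm r).2 : ℕ),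
    fun r => cN S a c' L (Fin.castLE hm (finProdFinEquiv.symm r).1)
      ((finProdFinEquiv.symm r).2 : ℕ), ?_, ?_, ?_, ?_⟩
  · intro r
    exact ⟨hcast _, by positivity, pow_le_one₀ (by norm_num) (by norm_num), hcN0 _ _⟩
  · rw [Equiv.sum_comp (finProdFinEquiv (m := m) (n := L + 1)).symm
      (fun x : Fin m × Fin (L + 1) => cN S a c' L (Fin.castLE hm x.1) (x.2 : ℕ)),
      Fintype.sum_prod_type]
    calc ∑ i : Fin m, ∑ l : Fin (L + 1), cN S a c' L (Fin.castLE hm i) (l : ℕ) ≤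
        ∑ _i : Fin m, (a * (4 * (C1 * M)) + 1) :=
          Finset.sum_le_sum fun i _ => (hsum _ (hcast i)).1
      _ = m * (a * (4 * (C1 * M)) + 1) := by simp; ring
      _ ≤ _ := by
        have h1 : 0 ≤ (CR + CA) * (C1 * M) := by positivity
        have h2 : 0 ≤ (m : ℝ) * (a * CE + 1) := by positivity
        linarith
  · rw [Equiv.sum_comp (finProdFinEquiv (m := m) (n := L + 1)).symm
      (fun x : Fin m × Fin (L + 1) => cN S a c' L (Fin.castLE hm x.1) (x.2 : ℕ) *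
        Real.log (1 / (1 / 2 : ℝ) ^ (x.2 : ℕ))),
      Fintype.sum_prod_type]
    calc ∑ i : Fin m, ∑ l : Fin (L + 1), cN S a c' L (Fin.castLE hm i) (l : ℕ) *
          Real.log (1 / (1 / 2 : ℝ) ^ (l : ℕ)) ≤
        ∑ _i : Fin m, (a * (CE * (1 + A)) + 1) :=
          Finset.sum_le_sum fun i _ => (hsum _ (hcast i)).2
      _ = m * (a * (CE * (1 + A)) + 1) := by simp; ring
      _ ≤ m * (a * CE + 1) * (1 + A) := by
        have : (m : ℝ) * A ≥ 0 := by positivity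
        nlinarith
      _ ≤ _ := by
        refine mul_le_mul_of_nonneg_right ?_ (by linarith)
        have h1 : 0 ≤ (CR + CA) * (C1 * M) := by positivity
        have h2 : 0 ≤ (m : ℝ) * (a * (4 * (C1 * M)) + 1) := by positivity
        linarith
  · intro y hy1 hyi
    have hy0 : y ≠ 0 := by
      rintro rfl
      simp [nsq] at hy1
    obtain ⟨P, hP⟩ : ∃ P, P = avS m S y := ⟨_, rfl⟩
    have hTen : Pool.Agent.H92.EHD.Ten y P := by
      rw [hP]; exact av_ten hMBU hD13 hD5 hS hy0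
    obtain ⟨⟨hF0, hF⟩, hO⟩ := tr_first (m := m) hMBU hD13 hCC hC hS hy0
    obtain ⟨hall, hone⟩ := hy y hy1
    rw [hmass] at hall hone
    rw [← hP] at hF0 hF hO hall hone
    have hom : Psd (om (k + 1) (s + 1) y) := (hD7 (k + 1) (s + 1)).1.cp.psd y hy0
    have hTF : ∀ (b : Fin (k + 1)) (l : ℕ), Psd (TF s b ((1 / 2 : ℝ) ^ l) y) := fun b l =>
      (tf_pf hL5 hD6 hD7 b (by positivity)).cp.psd y hy0
    have hterm : ∀ r : Fin (m * (L + 1)), Psd (fun I J =>
        ((cN S a c' L (Fin.castLE hm (finProdFinEquiv.symm r).1)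
          ((finProdFinEquiv.symm r).2 : ℕ) : ℝ) : ℂ) *
        TF s (Fin.castLE hm (finProdFinEquiv.symm r).1)
          ((1 / 2 : ℝ) ^ ((finProdFinEquiv.symm r).2 : ℕ)) y I J) := fun r =>
      psd_mul (hTF _ _) (hcN0 _ _)
    obtain ⟨Ct, hCt⟩ : ∃ Ct : ℝ, Ct = (CR + CA) * (C1 * M) +
      m * (a * (4 * (C1 * M)) + a * CE + 2) + 1 := ⟨_, rfl⟩
    have hCt0 : (CR + CA) * (C1 * M) ≤ Ct := by
      rw [hCt]
      have : 0 ≤ (m : ℝ) * (a * (4 * (C1 * M)) + a * CE + 2) := by positivity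
      linarith
    have hx1 : 0 ≤ CR * (C1 * M) := by positivity
    have hx2 : 0 ≤ CA * (C1 * M) := by positivity
    rw [← hCt, ← hP]
    by_cases hcase0 : ∃ i j : Fin (k + 1), (i : ℕ) < m ∧ (j : ℕ) < m ∧ i ≠ j ∧ ‖y i‖ < ε ∧
      ‖y j‖ < ε
    · obtain ⟨i, j, hi, hj, hij, h1, h2⟩ := hcase0
      rw [hε] at h1 h2
      have hP0 : ∀ I J, P I J = 0 := fun I J => by
        rw [hP]; exact av_zero hMBU hD13 hK hy1 hi hj hij h1 h2 I J
      have h3 := psd_add (psd_mul hom (show 0 ≤ Ct by linarith))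
        (psd_sum Finset.univ _ (fun r _ => hterm r))
      refine (congrArg Psd ?_).mpr h3
      funext I J
      rw [hP0 I J, sub_zero]
    · push Not at hcase0
      by_cases hcase1 : ∀ i : Fin (k + 1), (i : ℕ) < m → ε ≤ ‖y i‖
      · have h1 := hall hcase1
        have h2 := hR y P hy0 hTen
        have h3 := psd_add (psd_add h2 (psd_mul hom (show 0 ≤ Ct - CR *
          Pool.Agent.H92.EHD.trF P by
            have := mul_le_mul_of_nonneg_left h1 hCR.le
            linarith))) (psd_sum Finset.univ _ (fun r _ => hterm r))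
        refine (congrArg Psd ?_).mpr h3
        funext I J
        rw [hy1, one_pow, mul_one]
        push_cast
        ring
      · push Not at hcase1
        obtain ⟨b, hbm, hbε⟩ := hcase1
        have hoth : ∀ i : Fin (k + 1), (i : ℕ) < m → i ≠ b → ε ≤ ‖y i‖ := by
          intro i hi hib
          by_contra hlt
          push Not at hlt
          exact absurd (hcase0 i b hi hbm hib hlt) (not_le.2 hbε)
        obtain ⟨ho1, ho2⟩ := hone b hbm (hyi b hbm) hoth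
        have hn0 : 0 < ‖y b‖ := norm_pos_iff.2 (hyi b hbm)
        have hbb : Fin.castLE hm (⟨b, hbm⟩ : Fin m) = b := by
          ext
          rfl
        -- the level
        obtain ⟨l, hl1, hl2⟩ := exists_nat_pow_near_of_lt_one hn0 (show ‖y b‖ ≤ 1 by linarith)
          (show (0 : ℝ) < 1 / 2 by norm_num) (show (1 / 2 : ℝ) < 1 by norm_num)
        obtain ⟨l', hl'L, hl'y, hl'c⟩ : ∃ l' : ℕ, l' < L + 1 ∧ ‖y b‖ ≤ (1 / 2 : ℝ) ^ l' ∧
            CA * ((1 / 2 : ℝ) ^ l') ^ 2 * Pool.Agent.H92.EHD.trF P ≤ cN S a c' L b l' := by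
          by_cases hlL : l < L
          · refine ⟨l, by omega, hl2, ?_⟩
            have h1 := ho2 l hl1 hl2
            unfold cN
            rw [if_pos hlL, ha]
            have h2 := mul_le_mul_of_nonneg_left h1 hCA.le
            unfold gS
            linarith
          · refine ⟨L, by omega, hl2.trans (pow_le_pow_of_le_one (by norm_num) (by norm_num)
              (by omega)), ?_⟩
            unfold cN
            rw [if_neg (lt_irrefl L), hc']
            have h1 : Pool.Agent.H92.EHD.trF P ≤ CC * B := by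
              refine toR (by positivity) hF ?_
              rw [ENNReal.ofReal_mul hCC.le]
              gcongr
              exact hB y hy1
            have h2 := mul_le_mul_of_nonneg_left h1
              (show 0 ≤ CA * ((1 / 2 : ℝ) ^ L) ^ 2 by positivity)
            linarith
        have h2 := hA y b ((1 / 2 : ℝ) ^ l') P hy1 hTen (by positivity)
          (pow_le_one₀ (by norm_num) (by norm_num)) hl'y (by nlinarith)
        obtain ⟨r0, hr0⟩ : ∃ r0 : Fin (m * (L + 1)), r0 =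
          finProdFinEquiv (⟨b, hbm⟩, ⟨l', hl'L⟩) := ⟨_, rfl⟩
        have hr1 : (finProdFinEquiv.symm r0 : Fin m × Fin (L + 1)) =
            (⟨b, hbm⟩, ⟨l', hl'L⟩) := by
          rw [hr0, Equiv.symm_apply_apply]
        have h3 := psd_add (psd_add (psd_add h2 (psd_mul hom (show 0 ≤ Ct - CA * trO b P by
            have := mul_le_mul_of_nonneg_left ho1 hCA.le
            linarith))) (psd_mul (hTF b l') (show 0 ≤ cN S a c' L b l' -
              CA * ((1 / 2 : ℝ) ^ l') ^ 2 * Pool.Agent.H92.EHD.trF P by linarith)))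
            (psd_sum (Finset.univ.erase r0) _ (fun r _ => hterm r))
        refine (congrArg Psd ?_).mpr h3
        funext I J
        rw [← Finset.add_sum_erase Finset.univ _ (Finset.mem_univ r0)]
        simp only [hr1, hbb]
        have e1 : TF s b ((1 / 2 : ℝ) ^ l') y I J = wedge (om (k + 1) s y)
            (hessR (fun z => (1 / 2) * Real.log (‖z b‖ ^ 2 + ((1 / 2 : ℝ) ^ l') ^ 2 * nsq z)) y)
              I J := rfl
        rw [e1]
        push_cast
        ring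

/-- Row MSZ. -/
theorem pf_MSZ (hMBU : T_MBU) (hMSA : T_MSA) (hMSB : T_MSB) (hMSC : T_MSC) (hMSD : T_MSD)
    (hMSE : T_MSE) (hRDA : Pool.Agent.H92.EHD.T_RDA) (hD13 : T_D13) (hD5 : T_D5) (hD6 : T_D6)
    (hD7 : T_D7) (hL5 : T_L5) : T_MSZ := by
  intro m k s q κ hm hk
  obtain ⟨C, hC, h⟩ := msz_core hMBU hMSA hMSB hMSC hMSD hMSE hRDA hD13 hD5 hD6 hD7 hL5
    m k s q κ hm hk
  refine ⟨C, hC, fun S A hA hS hK hLM hmass => ?_⟩
  obtain ⟨n, b, δ, c, h1, h2, h3, h4⟩ := h S A hA hS hK hLM hmass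
  refine ⟨n, b, δ, c, h1, h2, h3, fun y hy hyi => ?_⟩
  obtain ⟨r, hr⟩ : ∃ r, r = nrm y := ⟨_, rfl⟩
  have hr0 : 0 < r := by rw [hr]; exact Real.sqrt_pos.2 (z_nsq_pos hy)
  have hrc : (r : ℂ) ≠ 0 := by exact_mod_cast hr0.ne'
  obtain ⟨y', hy'⟩ : ∃ y' : Fin (k + 1) → ℂ, y' = ((r : ℂ)⁻¹) • y := ⟨_, rfl⟩
  have hyy : y = (r : ℂ) • y' := by rw [hy', smul_inv_smul₀ hrc]
  have hy'0 : y' ≠ 0 := by
    rintro h0
    rw [h0, smul_zero] at hyy
    exact hy hyy
  have hn : nsq y' = 1 := by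
    have e1 : nsq y' = (r ^ 2)⁻¹ * nsq y := by
      rw [hy']
      unfold nsq
      rw [Finset.mul_sum]
      refine Finset.sum_congr rfl fun i _ => ?_
      rw [Pi.smul_apply, smul_eq_mul, norm_mul, norm_inv, Complex.norm_real,
        Real.norm_eq_abs, abs_of_pos hr0]
      ring
    have e2 : nsq y = r ^ 2 := by
      rw [hr]
      unfold nrm
      rw [Real.sq_sqrt (z_nsq0 y)]
    rw [e1, e2, inv_mul_cancel₀ (by positivity)]
  have hyi' : ∀ i : Fin (k + 1), (i : ℕ) < m → y' i ≠ 0 := by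
    intro i hi
    rw [hy', Pi.smul_apply, smul_eq_mul]
    exact mul_ne_zero (inv_ne_zero hrc) (hyi i hi)
  have h5 := psd_mul (h4 y' hn hyi') (show 0 ≤ (‖(r : ℂ)‖ ^ (2 * (s + 1)))⁻¹ by positivity)
  refine (congrArg Psd ?_).mpr h5
  funext I J
  rw [hyy, (hD7 (k + 1) (s + 1)).1.homog (r : ℂ) y' hrc hy'0 I J,
    av_hom hMBU hD13 hD5 hS (r : ℂ) hrc hy'0 I J]
  have e3 : ∀ l : Fin n, (c l : ℂ) * TF s (b l) (δ l) ((r : ℂ) • y') I J =
      (((‖(r : ℂ)‖ ^ (2 * (s + 1)))⁻¹ : ℝ) : ℂ) * ((c l : ℂ) * TF s (b l) (δ l) y' I J) := by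
    intro l
    rw [(tf_pf hL5 hD6 hD7 (b l) (h1 l).2.1).homog (r : ℂ) y' hrc hy'0 I J]
    ring
  rw [Finset.sum_congr rfl (fun l _ => e3 l), ← Finset.mul_sum]
  ring

end

end Pool.Agent.H38.EM
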