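import Pool.Agent.H92.EM.TA

/-!
# Row MSZ of the board `emd_modules`, part 1: the averaged form
-/

set_option autoImplicit false

namespace Pool.Agent.H38.EM

open scoped BigOperators ComplexConjugate ContDiff ComplexOrder
open MeasureTheory Pool.Agent.H92.EQ Pool.Agent.H92.EM

noncomputable section

theorem z_nsq0 {N : ℕ} (z : Fin N → ℂ) : 0 ≤ nsq z := by
  unfold nsq; positivity

theorem z_nsq_pos {N : ℕ} {z : Fin N → ℂ} (hz : z ≠ 0) : 0 < nsq z := by
  obtain ⟨i, hi⟩ := Function.ne_iff.1 hz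
  have h1 : 0 < ‖z i‖ ^ 2 := by
    have : 0 < ‖z i‖ := norm_pos_iff.2 hi
    positivity
  exact lt_of_lt_of_le h1 (Finset.single_le_sum (f := fun i => ‖z i‖ ^ 2)
    (fun i _ => by positivity) (Finset.mem_univ i))

theorem z_coord {N : ℕ} (z : Fin N → ℂ) (i : Fin N) : ‖z i‖ ≤ nrm z := by
  unfold nrm
  apply Real.le_sqrt_of_sq_le
  exact Finset.single_le_sum (f := fun i => ‖z i‖ ^ 2)
    (fun i _ => by positivity) (Finset.mem_univ i)

theorem z_nrm_one {N : ℕ} {z : Fin N → ℂ} (h : nsq z = 1) : nrm z = 1 := by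
  unfold nrm; rw [h]; simp

theorem z_nrm_tri {N : ℕ} (x y : Fin N → ℂ) : nrm (x + y) ≤ nrm x + nrm y := by
  have h1 : ∀ z : Fin N → ℂ, nrm z = ‖(WithLp.toLp 2 z : EuclideanSpace ℂ (Fin N))‖ := by
    intro z
    rw [EuclideanSpace.norm_eq]
    rfl
  rw [h1, h1, h1]
  exact norm_add_le (WithLp.toLp 2 x : EuclideanSpace ℂ (Fin N)) (WithLp.toLp 2 y)

theorem z_nrm_cont {N : ℕ} : Continuous (nrm : (Fin N → ℂ) → ℝ) := by
  unfold nrm nsq
  fun_prop

theorem z_nrm_le {N : ℕ} {z : Fin N → ℂ} {c : ℝ} (h : ∀ i, ‖z i‖ ≤ c) (hc : 0 ≤ c) :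
    nrm z ≤ Real.sqrt N * c := by
  have h1 : nsq z ≤ N * c ^ 2 := by
    unfold nsq
    calc ∑ i, ‖z i‖ ^ 2 ≤ ∑ _i : Fin N, c ^ 2 :=
          Finset.sum_le_sum fun i _ => pow_le_pow_left₀ (norm_nonneg _) (h i) 2
      _ = N * c ^ 2 := by simp
  unfold nrm
  calc Real.sqrt (nsq z) ≤ Real.sqrt (N * c ^ 2) := Real.sqrt_le_sqrt h1
    _ = Real.sqrt N * c := by
      rw [Real.sqrt_mul (Nat.cast_nonneg N), Real.sqrt_sq hc]

theorem z_sum_le {N : ℕ} (z : Fin N → ℂ) : ∑ i, ‖z i‖ ≤ Real.sqrt N * nrm z := by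
  have h := sq_sum_le_card_mul_sum_sq (s := (Finset.univ : Finset (Fin N))) (f := fun i => ‖z i‖)
  have h1 : (∑ i, ‖z i‖) ^ 2 ≤ N * nsq z := by
    simpa [nsq] using h
  have h2 : Real.sqrt N * nrm z = Real.sqrt (N * nsq z) := by
    unfold nrm; rw [Real.sqrt_mul (Nat.cast_nonneg N)]
  rw [h2]
  exact Real.le_sqrt_of_sq_le h1

/-- the small matrices -/
def Sm (k : ℕ) : Set (Fin (k + 1) → Fin (k + 1) → ℂ) := {X | ∀ i j, ‖X i j‖ ≤ th0 k}

theorem th0_pos (k : ℕ) : 0 < th0 k := by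
  unfold th0; positivity

theorem Sm_eq (k : ℕ) : Sm k = Metric.closedBall 0 (th0 k) := by
  ext X
  simp only [Sm, Set.mem_ofPred_eq, mem_closedBall_zero_iff]
  rw [pi_norm_le_iff_of_nonneg (th0_pos k).le]
  constructor
  · intro h i
    rw [pi_norm_le_iff_of_nonneg (th0_pos k).le]
    exact h i
  · intro h i j
    have := h i
    rw [pi_norm_le_iff_of_nonneg (th0_pos k).le] at this
    exact this j

theorem Sm_compact (k : ℕ) : IsCompact (Sm k) := by
  rw [Sm_eq]; exact isCompact_closedBall _ _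

theorem mX_ne {k m : ℕ} (X : Fin (k + 1) → Fin (k + 1) → ℂ) (i j : Fin (k + 1))
    (hi : (i : ℕ) < m) (hj : j ≠ i) : mX m X i j = 0 := by
  unfold mX msk
  rw [if_pos ⟨hi, hj⟩]

theorem mX_sub {k m : ℕ} {X : Fin (k + 1) → Fin (k + 1) → ℂ} (hX : X ∈ Sm k)
    (i j : Fin (k + 1)) :
    ‖mX m X i j - (1 : Matrix (Fin (k + 1)) (Fin (k + 1)) ℂ) i j‖ ≤ th0 k := by
  unfold mX msk
  split_ifs with h
  · rw [Matrix.one_apply_ne (Ne.symm h.2)]
    simpa using (th0_pos k).le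
  · rw [Matrix.add_apply, add_sub_cancel_left]
    exact hX i j

theorem mX_mulVec {k m : ℕ} {X : Fin (k + 1) → Fin (k + 1) → ℂ} (hX : X ∈ Sm k)
    (y : Fin (k + 1) → ℂ) (i : Fin (k + 1)) :
    ‖(mX m X).mulVec y i - y i‖ ≤ th0 k * ∑ j, ‖y j‖ := by
  have h1 : (mX m X).mulVec y i - y i =
      ∑ j, (mX m X i j - (1 : Matrix (Fin (k + 1)) (Fin (k + 1)) ℂ) i j) * y j := by
    have h2 : y i = ∑ j, (1 : Matrix (Fin (k + 1)) (Fin (k + 1)) ℂ) i j * y j := by
      simp [Matrix.one_apply]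
    conv_lhs => rw [h2]
    rw [Matrix.mulVec, dotProduct, ← Finset.sum_sub_distrib]
    exact Finset.sum_congr rfl fun j _ => by ring
  rw [h1, Finset.mul_sum]
  refine (norm_sum_le _ _).trans (Finset.sum_le_sum fun j _ => ?_)
  rw [norm_mul]
  exact mul_le_mul_of_nonneg_right (mX_sub hX i j) (norm_nonneg _)

theorem mX_nrm {k m : ℕ} {X : Fin (k + 1) → Fin (k + 1) → ℂ} (hX : X ∈ Sm k)
    (y : Fin (k + 1) → ℂ) :
    7 / 8 * nrm y ≤ nrm ((mX m X).mulVec y) ∧ nrm ((mX m X).mulVec y) ≤ 9 / 8 * nrm y := by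
  have hs : Real.sqrt ((k + 1 : ℕ) : ℝ) * Real.sqrt ((k + 1 : ℕ) : ℝ) = ((k + 1 : ℕ) : ℝ) :=
    Real.mul_self_sqrt (Nat.cast_nonneg _)
  have hd : nrm ((mX m X).mulVec y - y) ≤ 1 / 8 * nrm y := by
    have h1 := z_nrm_le (z := (mX m X).mulVec y - y) (c := th0 k * ∑ j, ‖y j‖)
      (fun i => mX_mulVec hX y i)
      (mul_nonneg (th0_pos k).le (Finset.sum_nonneg fun _ _ => norm_nonneg _))
    refine h1.trans ?_
    have h2 := z_sum_le y
    have h3 : Real.sqrt ((k + 1 : ℕ) : ℝ) * (th0 k * ∑ j, ‖y j‖) ≤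
        Real.sqrt ((k + 1 : ℕ) : ℝ) * (th0 k * (Real.sqrt ((k + 1 : ℕ) : ℝ) * nrm y)) :=
      mul_le_mul_of_nonneg_left (mul_le_mul_of_nonneg_left h2 (th0_pos k).le)
        (Real.sqrt_nonneg _)
    refine h3.trans (le_of_eq ?_)
    have h4 : Real.sqrt ((k + 1 : ℕ) : ℝ) * (th0 k * (Real.sqrt ((k + 1 : ℕ) : ℝ) * nrm y)) =
        (Real.sqrt ((k + 1 : ℕ) : ℝ) * Real.sqrt ((k + 1 : ℕ) : ℝ)) * th0 k * nrm y := by ring
    rw [h4, hs]
    unfold th0
    push_cast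
    field_simp
  have e1 : (mX m X).mulVec y = y + ((mX m X).mulVec y - y) := by abel
  have e2 : y = (mX m X).mulVec y + (-((mX m X).mulVec y - y)) := by abel
  have h5 := z_nrm_tri y ((mX m X).mulVec y - y)
  rw [← e1] at h5
  have h6 := z_nrm_tri ((mX m X).mulVec y) (-((mX m X).mulVec y - y))
  rw [← e2] at h6
  have h7 : nrm (-((mX m X).mulVec y - y)) = nrm ((mX m X).mulVec y - y) := by
    unfold nrm nsq
    simp only [Pi.neg_apply, norm_neg]
  rw [h7] at h6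
  constructor <;> linarith

theorem mX_low {k m : ℕ} {X : Fin (k + 1) → Fin (k + 1) → ℂ} (hX : X ∈ Sm k)
    (y : Fin (k + 1) → ℂ) (i : Fin (k + 1)) (hi : (i : ℕ) < m) :
    ‖(mX m X).mulVec y i‖ ≤ 9 / 8 * ‖y i‖ := by
  have h1 : (mX m X).mulVec y i = mX m X i i * y i := by
    rw [Matrix.mulVec, dotProduct, Finset.sum_eq_single i]
    · intro j _ hj
      rw [mX_ne X i j hi hj, zero_mul]
    · intro h
      exact absurd (Finset.mem_univ i) h
  have h2 := mX_sub (m := m) hX i i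
  rw [Matrix.one_apply_eq] at h2
  have h3 : ‖mX m X i i‖ ≤ 9 / 8 := by
    have h4 : ‖mX m X i i‖ ≤ ‖mX m X i i - 1‖ + ‖(1 : ℂ)‖ := by
      have := norm_add_le (mX m X i i - 1) (1 : ℂ)
      rwa [sub_add_cancel] at this
    have h5 : th0 k ≤ 1 / 8 := by
      unfold th0
      rw [div_le_div_iff_of_pos_left one_pos (by positivity) (by norm_num)]
      have : (0 : ℝ) ≤ k := Nat.cast_nonneg k
      linarith
    rw [norm_one] at h4
    linarith
  rw [h1, norm_mul]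
  exact mul_le_mul_of_nonneg_right h3 (norm_nonneg _)

theorem mX_det {k m : ℕ} {X : Fin (k + 1) → Fin (k + 1) → ℂ} (hX : X ∈ Sm k) :
    (mX m X).det ≠ 0 := by
  intro h
  obtain ⟨v, hv, hv0⟩ := Matrix.exists_mulVec_eq_zero_iff.2 h
  have h1 := (mX_nrm (m := m) hX v).1
  rw [hv0] at h1
  have h2 : nrm (0 : Fin (k + 1) → ℂ) = 0 := by unfold nrm nsq; simp
  rw [h2] at h1
  have h3 : 0 < nrm v := Real.sqrt_pos.2 (z_nsq_pos hv)
  linarith

theorem mX_y {k m : ℕ} {X : Fin (k + 1) → Fin (k + 1) → ℂ} (hX : X ∈ Sm k)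
    {y : Fin (k + 1) → ℂ} (hy : y ≠ 0) : (mX m X).mulVec y ≠ 0 := by
  intro h
  exact mX_det (m := m) hX (Matrix.exists_mulVec_eq_zero_iff.1 ⟨y, hy, h⟩)

theorem bth_supp {k : ℕ} (hMBU : T_MBU) {X : Fin (k + 1) → Fin (k + 1) → ℂ}
    (hX : X ∉ Sm k) : bth (th0 k) X = 0 := by
  obtain ⟨C, _, h1, _⟩ := hMBU
  obtain ⟨_, _, _, h2, _⟩ := h1 (th0 k) (th0_pos k)
  simp only [Sm, Set.mem_ofPred_eq, not_forall, not_le] at hX
  obtain ⟨i, j, hij⟩ := hX
  unfold bth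
  exact Finset.prod_eq_zero (Finset.mem_univ i)
    (Finset.prod_eq_zero (Finset.mem_univ j) (h2 _ hij.le))

theorem bth_nonneg {k : ℕ} (hMBU : T_MBU) (X : Fin (k + 1) → Fin (k + 1) → ℂ) :
    0 ≤ bth (th0 k) X := by
  obtain ⟨C, _, h1, _⟩ := hMBU
  obtain ⟨_, h2, _⟩ := h1 (th0 k) (th0_pos k)
  unfold bth
  exact Finset.prod_nonneg fun i _ => Finset.prod_nonneg fun j _ => h2 _

theorem bth_cont {k : ℕ} (hMBU : T_MBU) :
    Continuous (bth (th0 k) : (Fin (k + 1) → Fin (k + 1) → ℂ) → ℝ) := by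
  obtain ⟨C, _, h1, _⟩ := hMBU
  obtain ⟨h2, _⟩ := h1 (th0 k) (th0_pos k)
  unfold bth
  exact continuous_finsetProd _ fun i _ => continuous_finsetProd _ fun j _ =>
    h2.continuous.comp ((continuous_apply j).comp (continuous_apply i))

theorem mX_cont {k m : ℕ} (i j : Fin (k + 1)) :
    Continuous (fun X : Fin (k + 1) → Fin (k + 1) → ℂ => mX m X i j) := by
  by_cases h : (i : ℕ) < m ∧ j ≠ i
  · have h1 : (fun X : Fin (k + 1) → Fin (k + 1) → ℂ => mX m X i j) = fun _ => 0 := by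
      funext X
      exact mX_ne X i j h.1 h.2
    rw [h1]
    exact continuous_const
  · have h1 : (fun X : Fin (k + 1) → Fin (k + 1) → ℂ => mX m X i j) =
        fun X => (1 : Matrix (Fin (k + 1)) (Fin (k + 1)) ℂ) i j + X i j := by
      funext X
      unfold mX msk
      rw [if_neg h]
      rfl
    rw [h1]
    exact continuous_const.add ((continuous_apply j).comp (continuous_apply i))

theorem mX_contV {k m : ℕ} (y : Fin (k + 1) → ℂ) :
    Continuous (fun X : Fin (k + 1) → Fin (k + 1) → ℂ => (mX m X).mulVec y) := by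
  refine continuous_pi fun i => ?_
  simp only [Matrix.mulVec, dotProduct]
  exact continuous_finsetSum _ fun j _ => (mX_cont i j).mul continuous_const

/-- the entries of the pull-back are continuous on `Sm` -/
theorem pull_cont (hD13 : T_D13) {k m p : ℕ} {S : Form (Fin (k + 1)) p} (hS : ProjForm S)
    {y : Fin (k + 1) → ℂ} (hy : y ≠ 0) (I J : Fin p → Fin (k + 1)) :
    ContinuousOn (fun X : Fin (k + 1) → Fin (k + 1) → ℂ => pull (lin (mX m X)) S y I J)
      (Sm k) := by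
  have h1 : (fun X : Fin (k + 1) → Fin (k + 1) → ℂ => pull (lin (mX m X)) S y I J) =
      fun X => ∑ I' : Fin p → Fin (k + 1), ∑ J' : Fin p → Fin (k + 1),
        S ((mX m X).mulVec y) I' J' * (∏ l, mX m X (I' l) (I l)) *
          ∏ l, conj (mX m X (J' l) (J l)) := by
    funext X
    unfold pull
    obtain ⟨e1, e2, _⟩ := hD13 (k + 1) (mX m X) 1 y
    rw [e1, e2]
  rw [h1]
  refine continuousOn_finsetSum _ fun I' _ => continuousOn_finsetSum _ fun J' _ => ?_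
  refine ContinuousOn.mul (ContinuousOn.mul ?_ ?_) ?_
  · have hc : ContinuousOn (fun z => S z I' J') {0}ᶜ := (hS.cp.smooth I' J').continuousOn
    exact hc.comp (mX_contV y).continuousOn (fun X hX => mX_y hX hy)
  · exact (continuous_finsetProd _ fun l _ => mX_cont _ _).continuousOn
  · exact (continuous_finsetProd _ fun l _ =>
      Complex.continuous_conj.comp (mX_cont _ _)).continuousOn

theorem av_int (hMBU : T_MBU) (hD13 : T_D13) {k m p : ℕ} {S : Form (Fin (k + 1)) p}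
    (hS : ProjForm S) {y : Fin (k + 1) → ℂ} (hy : y ≠ 0) (I J : Fin p → Fin (k + 1)) :
    Integrable (fun X : Fin (k + 1) → Fin (k + 1) → ℂ =>
      ((bth (th0 k) X : ℝ) : ℂ) * pull (lin (mX m X)) S y I J) := by
  have h1 : IntegrableOn (fun X : Fin (k + 1) → Fin (k + 1) → ℂ =>
      ((bth (th0 k) X : ℝ) : ℂ) * pull (lin (mX m X)) S y I J) (Sm k) := by
    refine ContinuousOn.integrableOn_compact (Sm_compact k) ?_
    refine ContinuousOn.mul ?_ (pull_cont hD13 hS hy I J)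
    exact (Complex.continuous_ofReal.comp (bth_cont hMBU)).continuousOn
  rwa [integrableOn_iff_integrable_of_support_subset] at h1
  intro X hX
  by_contra h
  apply hX
  simp only [bth_supp hMBU h]
  simp

theorem pull_pf (hD13 : T_D13) (hD5 : T_D5) {k m p : ℕ} {S : Form (Fin (k + 1)) p}
    (hS : ProjForm S) {X : Fin (k + 1) → Fin (k + 1) → ℂ} (hX : X ∈ Sm k) :
    ProjForm (pull (lin (mX m X)) S) := by
  obtain ⟨_, _, h3, _⟩ := hD13 (k + 1) (mX m X) 1 0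
  exact hD5 (k + 1) p 1 _ S le_rfl (h3 (mX_det hX)) hS

end

end Pool.Agent.H38.EM
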