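import Pool.Agent.H38.EM.MSZ1

/-!
# Row MSZ of the board `emd_modules`, part 2: properties of the averaged form
-/

set_option autoImplicit false

namespace Pool.Agent.H38.EM

open scoped BigOperators ComplexConjugate ContDiff ComplexOrder
open MeasureTheory Pool.Agent.H92.EQ Pool.Agent.H92.EM

noncomputable section

variable {k m p : ℕ}

theorem cint_nonneg {α : Type*} [MeasurableSpace α] {μ : Measure α} {f : α → ℂ}
    (hf : Integrable f μ) (h : ∀ x, 0 ≤ f x) : 0 ≤ ∫ x, f x ∂μ := by
  have h1 : ∀ x, 0 ≤ (f x).re ∧ (f x).im = 0 := fun x => by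
    have := Complex.nonneg_iff.1 (h x)
    exact ⟨this.1, this.2.symm⟩
  rw [Complex.nonneg_iff]
  have e1 : (∫ x, f x ∂μ).re = ∫ x, (f x).re ∂μ := (integral_re hf).symm
  have e2 : (∫ x, f x ∂μ).im = ∫ x, (f x).im ∂μ := (integral_im hf).symm
  rw [e1, e2]
  refine ⟨integral_nonneg fun x => (h1 x).1, ?_⟩
  simp [fun x => (h1 x).2]

/-- the averaged form is an alternating positive tensor killing `y` -/
theorem av_ten (hMBU : T_MBU) (hD13 : T_D13) (hD5 : T_D5) {S : Form (Fin (k + 1)) p}
    (hS : ProjForm S) {y : Fin (k + 1) → ℂ} (hy : y ≠ 0) :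
    Pool.Agent.H92.EHD.Ten y (avS m S y) := by
  have hi := av_int (m := m) hMBU hD13 hS hy
  -- pointwise reduction
  have hpt : ∀ (X : Fin (k + 1) → Fin (k + 1) → ℂ), bth (th0 k) X = 0 ∨
      ProjForm (pull (lin (mX m X)) S) := by
    intro X
    by_cases hX : X ∈ Sm k
    · exact Or.inr (pull_pf hD13 hD5 hS hX)
    · exact Or.inl (bth_supp hMBU hX)
  refine ⟨?_, ?_, ?_, ?_, ?_⟩
  · intro c
    have e1 : ∑ I, ∑ J, c I * conj (c J) * avS m S y I J =
        ∫ X : Fin (k + 1) → Fin (k + 1) → ℂ, ∑ I, ∑ J, c I * conj (c J) *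
          (((bth (th0 k) X : ℝ) : ℂ) * pull (lin (mX m X)) S y I J) := by
      rw [integral_finsetSum _ (fun I _ => integrable_finsetSum _ fun J _ =>
        (hi I J).const_mul _)]
      refine Finset.sum_congr rfl fun I _ => ?_
      rw [integral_finsetSum _ (fun J _ => (hi I J).const_mul _)]
      refine Finset.sum_congr rfl fun J _ => ?_
      rw [integral_const_mul]
      rfl
    rw [e1]
    refine cint_nonneg (integrable_finsetSum _ fun I _ => integrable_finsetSum _ fun J _ =>
        (hi I J).const_mul _) fun X => ?_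
    rcases hpt X with h | h
    · simp [h]
    · have h1 := h.cp.psd y hy c
      have h2 : ∑ I, ∑ J, c I * conj (c J) *
          (((bth (th0 k) X : ℝ) : ℂ) * pull (lin (mX m X)) S y I J) =
          ((bth (th0 k) X : ℝ) : ℂ) * ∑ I, ∑ J, c I * conj (c J) *
            pull (lin (mX m X)) S y I J := by
        rw [Finset.mul_sum]
        refine Finset.sum_congr rfl fun I _ => ?_
        rw [Finset.mul_sum]
        exact Finset.sum_congr rfl fun J _ => by ring
      rw [h2]
      exact mul_nonneg (by exact_mod_cast bth_nonneg hMBU X) h1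
  · intro π I J
    unfold avS
    rw [← integral_const_mul]
    congr 1
    funext X
    rcases hpt X with h | h
    · simp [h]
    · rw [h.cp.altL y hy π I J]
      ring
  · intro π I J
    unfold avS
    rw [← integral_const_mul]
    congr 1
    funext X
    rcases hpt X with h | h
    · simp [h]
    · rw [h.cp.altR y hy π I J]
      ring
  · intro I J j
    have e1 : ∑ a, y a * avS m S y (Function.update I j a) J =
        ∫ X : Fin (k + 1) → Fin (k + 1) → ℂ, ∑ a, y a *
          (((bth (th0 k) X : ℝ) : ℂ) * pull (lin (mX m X)) S y (Function.update I j a) J) := by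
      rw [integral_finsetSum _ (fun a _ => (hi _ J).const_mul _)]
      refine Finset.sum_congr rfl fun a _ => ?_
      rw [integral_const_mul]
      rfl
    rw [e1]
    have e2 : (fun X : Fin (k + 1) → Fin (k + 1) → ℂ => ∑ a, y a *
          (((bth (th0 k) X : ℝ) : ℂ) * pull (lin (mX m X)) S y (Function.update I j a) J)) =
        fun _ => 0 := by
      funext X
      rcases hpt X with h | h
      · simp [h]
      · have h1 := h.basicL y hy I J j
        have h2 : ∑ a, y a * (((bth (th0 k) X : ℝ) : ℂ) *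
            pull (lin (mX m X)) S y (Function.update I j a) J) =
            ((bth (th0 k) X : ℝ) : ℂ) * ∑ a, y a *
              pull (lin (mX m X)) S y (Function.update I j a) J := by
          rw [Finset.mul_sum]
          exact Finset.sum_congr rfl fun a _ => by ring
        rw [h2, h1, mul_zero]
    rw [e2]
    simp
  · intro I J j
    have e1 : ∑ a, conj (y a) * avS m S y I (Function.update J j a) =
        ∫ X : Fin (k + 1) → Fin (k + 1) → ℂ, ∑ a, conj (y a) *
          (((bth (th0 k) X : ℝ) : ℂ) * pull (lin (mX m X)) S y I (Function.update J j a)) := by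
      rw [integral_finsetSum _ (fun a _ => (hi I _).const_mul _)]
      refine Finset.sum_congr rfl fun a _ => ?_
      rw [integral_const_mul]
      rfl
    rw [e1]
    have e2 : (fun X : Fin (k + 1) → Fin (k + 1) → ℂ => ∑ a, conj (y a) *
          (((bth (th0 k) X : ℝ) : ℂ) * pull (lin (mX m X)) S y I (Function.update J j a))) =
        fun _ => 0 := by
      funext X
      rcases hpt X with h | h
      · simp [h]
      · have h1 := h.basicR y hy I J j
        have h2 : ∑ a, conj (y a) * (((bth (th0 k) X : ℝ) : ℂ) *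
            pull (lin (mX m X)) S y I (Function.update J j a)) =
            ((bth (th0 k) X : ℝ) : ℂ) * ∑ a, conj (y a) *
              pull (lin (mX m X)) S y I (Function.update J j a) := by
          rw [Finset.mul_sum]
          exact Finset.sum_congr rfl fun a _ => by ring
        rw [h2, h1, mul_zero]
    rw [e2]
    simp

/-- homogeneity -/
theorem av_hom (hMBU : T_MBU) (hD13 : T_D13) (hD5 : T_D5) {S : Form (Fin (k + 1)) p}
    (hS : ProjForm S) (l : ℂ) (hl : l ≠ 0) {y : Fin (k + 1) → ℂ} (hy : y ≠ 0)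
    (I J : Fin p → Fin (k + 1)) :
    avS m S (l • y) I J = ((‖l‖ ^ (2 * p))⁻¹ : ℝ) * avS m S y I J := by
  unfold avS
  rw [← integral_const_mul]
  congr 1
  funext X
  by_cases hX : X ∈ Sm k
  · rw [(pull_pf hD13 hD5 hS hX).homog l y hl hy I J]
    ring
  · simp [bth_supp hMBU hX]

/-- weighted traces -/
def trW {N s : ℕ} (w : (Fin s → Fin N) → ℝ) (T : (Fin s → Fin N) → (Fin s → Fin N) → ℂ) : ℝ :=
  ∑ I, w I * (T I I).re

theorem trW_one {N s : ℕ} (T : (Fin s → Fin N) → (Fin s → Fin N) → ℂ) :
    trW (fun _ => 1) T = Pool.Agent.H92.EHD.trF T := by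
  unfold trW Pool.Agent.H92.EHD.trF
  simp

theorem trW_b {N s : ℕ} (b : Fin N) (T : (Fin s → Fin N) → (Fin s → Fin N) → ℂ) :
    trW (fun I => if ∀ l, I l ≠ b then 1 else 0) T = trO b T := by
  unfold trW trO
  refine Finset.sum_congr rfl fun I _ => ?_
  show (if ∀ l, I l ≠ b then (1 : ℝ) else 0) * (T I I).re =
    if ∀ l, I l ≠ b then (T I I).re else 0
  by_cases h : ∀ l, I l ≠ b
  · rw [if_pos h, if_pos h, one_mul]
  · rw [if_neg h, if_neg h, zero_mul]

/-- the trace of the averaged form -/
theorem av_tr (hMBU : T_MBU) (hD13 : T_D13) {S : Form (Fin (k + 1)) p}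
    (hS : ProjForm S) {y : Fin (k + 1) → ℂ} (hy : y ≠ 0) (w : (Fin p → Fin (k + 1)) → ℝ) :
    Integrable (fun X : Fin (k + 1) → Fin (k + 1) → ℂ =>
      bth (th0 k) X * trW w (pull (lin (mX m X)) S y)) ∧
    trW w (avS m S y) =
      ∫ X : Fin (k + 1) → Fin (k + 1) → ℂ, bth (th0 k) X * trW w (pull (lin (mX m X)) S y) := by
  have hi := av_int (m := m) hMBU hD13 hS hy
  have e0 : (fun X : Fin (k + 1) → Fin (k + 1) → ℂ =>
      bth (th0 k) X * trW w (pull (lin (mX m X)) S y)) =
      fun X => ∑ I, w I * (((bth (th0 k) X : ℝ) : ℂ) * pull (lin (mX m X)) S y I I).re := by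
    funext X
    unfold trW
    rw [Finset.mul_sum]
    refine Finset.sum_congr rfl fun I _ => ?_
    rw [Complex.re_ofReal_mul]
    ring
  rw [e0]
  have hre : ∀ I : Fin p → Fin (k + 1), Integrable (fun X : Fin (k + 1) → Fin (k + 1) → ℂ =>
      w I * (((bth (th0 k) X : ℝ) : ℂ) * pull (lin (mX m X)) S y I I).re) := fun I =>
    ((hi I I).re).const_mul _
  refine ⟨integrable_finsetSum _ fun I _ => hre I, ?_⟩
  rw [integral_finsetSum _ (fun I _ => hre I)]
  unfold trW
  refine Finset.sum_congr rfl fun I _ => ?_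
  rw [integral_const_mul]
  congr 1
  exact (integral_re (hi I I)).symm

/-- the density of the trace -/
def hW {N s : ℕ} (w : (Fin s → Fin N) → ℝ) (S : Form (Fin N) s) (Y : Fin N → ℂ) : ENNReal :=
  Set.indicator ({0}ᶜ) (fun Y => ENNReal.ofReal (trW w (S Y))) Y

theorem hW_meas {N s : ℕ} (w : (Fin s → Fin N) → ℝ) {S : Form (Fin N) s} (hS : ProjForm S) :
    Measurable (hW w S) := by
  have h1 : ContinuousOn (fun Y => trW w (S Y)) ({0}ᶜ : Set (Fin N → ℂ)) := by
    unfold trW
    refine continuousOn_finsetSum _ fun I _ => ContinuousOn.mul continuousOn_const ?_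
    exact Complex.continuous_re.comp_continuousOn (hS.cp.smooth I I).continuousOn
  have h2 : Measurable (Set.indicator ({0}ᶜ : Set (Fin N → ℂ)) (fun Y => trW w (S Y))) := by
    have h3 := h1.measurable_piecewise (g := fun _ => (0 : ℝ)) (s := ({0}ᶜ : Set (Fin N → ℂ)))
      continuousOn_const (measurableSet_singleton 0).compl
    rw [← Set.piecewise_eq_indicator]
    exact h3
  have h4 : hW w S = fun Y => ENNReal.ofReal
      (Set.indicator ({0}ᶜ : Set (Fin N → ℂ)) (fun Y => trW w (S Y)) Y) := by
    funext Y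
    unfold hW
    by_cases hY : Y ∈ ({0}ᶜ : Set (Fin N → ℂ))
    · rw [Set.indicator_of_mem hY, Set.indicator_of_mem hY]
    · rw [Set.indicator_of_notMem hY, Set.indicator_of_notMem hY]
      simp
  rw [h4]
  exact h2.ennreal_ofReal

/-- the trace of the averaged form is bounded by the average of the traces -/
theorem av_tr_le (hMBU : T_MBU) (hD13 : T_D13) {S : Form (Fin (k + 1)) p}
    (hS : ProjForm S) {y : Fin (k + 1) → ℂ} (hy : y ≠ 0) (w : (Fin p → Fin (k + 1)) → ℝ)
    {C : ℝ} (hC : 0 ≤ C)
    (h : ∀ X ∈ Sm k, 0 ≤ trW w (pull (lin (mX m X)) S y) ∧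
      trW w (pull (lin (mX m X)) S y) ≤ C * trW w (S ((mX m X).mulVec y))) :
    0 ≤ trW w (avS m S y) ∧ ENNReal.ofReal (trW w (avS m S y)) ≤
      ENNReal.ofReal C * ∫⁻ X : Fin (k + 1) → Fin (k + 1) → ℂ,
        ENNReal.ofReal (bth (th0 k) X) * hW w S ((mX m X).mulVec y) := by
  obtain ⟨hi, he⟩ := av_tr (m := m) hMBU hD13 hS hy w
  have h0 : ∀ X : Fin (k + 1) → Fin (k + 1) → ℂ,
      0 ≤ bth (th0 k) X * trW w (pull (lin (mX m X)) S y) := by
    intro X
    by_cases hX : X ∈ Sm k
    · exact mul_nonneg (bth_nonneg hMBU X) (h X hX).1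
    · rw [bth_supp hMBU hX, zero_mul]
  rw [he]
  refine ⟨integral_nonneg h0, ?_⟩
  rw [ofReal_integral_eq_lintegral_ofReal hi (Filter.Eventually.of_forall h0)]
  have hm : Measurable (fun X : Fin (k + 1) → Fin (k + 1) → ℂ =>
      ENNReal.ofReal (bth (th0 k) X) * hW w S ((mX m X).mulVec y)) :=
    (bth_cont hMBU).measurable.ennreal_ofReal.mul
      ((hW_meas w hS).comp (mX_contV y).measurable)
  rw [← lintegral_const_mul _ hm]
  refine lintegral_mono fun X => ?_
  by_cases hX : X ∈ Sm k
  · have h1 : hW w S ((mX m X).mulVec y) = ENNReal.ofReal (trW w (S ((mX m X).mulVec y))) := by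
      unfold hW
      rw [Set.indicator_of_mem]
      exact mX_y hX hy
    simp only [h1]
    rw [ENNReal.ofReal_mul (bth_nonneg hMBU X)]
    calc ENNReal.ofReal (bth (th0 k) X) * ENNReal.ofReal (trW w (pull (lin (mX m X)) S y)) ≤
        ENNReal.ofReal (bth (th0 k) X) *
          ENNReal.ofReal (C * trW w (S ((mX m X).mulVec y))) := by
          gcongr
          exact (h X hX).2
      _ = ENNReal.ofReal C * (ENNReal.ofReal (bth (th0 k) X) *
          ENNReal.ofReal (trW w (S ((mX m X).mulVec y)))) := by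
          rw [ENNReal.ofReal_mul hC]
          ring
  · simp only [bth_supp hMBU hX]
    simp

end

end Pool.Agent.H38.EM
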