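import Pool.Agent.H38.EM.MSZ2

/-!
# Row MSZ of the board `emd_modules`, part 3: slabs, combinations
-/

set_option autoImplicit false

namespace Pool.Agent.H38.EM

open scoped BigOperators ComplexConjugate ContDiff ComplexOrder
open MeasureTheory Pool.Agent.H92.EQ Pool.Agent.H92.EM

noncomputable section

variable {k m : ℕ}

/-! ### positive tensors -/

theorem psd_add {N p : ℕ} {T T' : (Fin p → Fin N) → (Fin p → Fin N) → ℂ} (h : Psd T)
    (h' : Psd T') : Psd (fun I J => T I J + T' I J) := by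
  intro c
  have e : ∑ I, ∑ J, c I * conj (c J) * (T I J + T' I J) =
      (∑ I, ∑ J, c I * conj (c J) * T I J) + ∑ I, ∑ J, c I * conj (c J) * T' I J := by
    rw [← Finset.sum_add_distrib]
    refine Finset.sum_congr rfl fun I _ => ?_
    rw [← Finset.sum_add_distrib]
    exact Finset.sum_congr rfl fun J _ => by ring
  rw [e]
  exact add_nonneg (h c) (h' c)

theorem psd_mul {N p : ℕ} {T : (Fin p → Fin N) → (Fin p → Fin N) → ℂ} (h : Psd T) {r : ℝ}
    (hr : 0 ≤ r) : Psd (fun I J => (r : ℂ) * T I J) := by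
  intro c
  have e : ∑ I, ∑ J, c I * conj (c J) * ((r : ℂ) * T I J) =
      (r : ℂ) * ∑ I, ∑ J, c I * conj (c J) * T I J := by
    rw [Finset.mul_sum]
    refine Finset.sum_congr rfl fun I _ => ?_
    rw [Finset.mul_sum]
    exact Finset.sum_congr rfl fun J _ => by ring
  rw [e]
  exact mul_nonneg (by exact_mod_cast hr) (h c)

theorem psd_sum {N p : ℕ} {α : Type} (s : Finset α)
    (T : α → (Fin p → Fin N) → (Fin p → Fin N) → ℂ) (h : ∀ r ∈ s, Psd (T r)) :
    Psd (fun I J => ∑ r ∈ s, T r I J) := by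
  classical
  induction s using Finset.induction_on with
  | empty =>
    intro c
    simp
  | insert a s ha ih =>
    have h1 := psd_add (h a (Finset.mem_insert_self a s))
      (ih fun r hr => h r (Finset.mem_insert_of_mem hr))
    have e : (fun I J => ∑ r ∈ insert a s, T r I J) =
        fun I J => T a I J + ∑ r ∈ s, T r I J := by
      funext I J
      rw [Finset.sum_insert ha]
    rw [e]
    exact h1

/-! ### slabs -/

/-- the shell -/
def Shl (k : ℕ) : Set (Fin (k + 1) → ℂ) := {Y | 1 / 2 ≤ nrm Y ∧ nrm Y ≤ 2}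

/-- the slabs -/
def Slb (b : Fin (k + 1)) (l : ℕ) : Set (Fin (k + 1) → ℂ) :=
  {Y | (1 / 2 ≤ nrm Y ∧ nrm Y ≤ 2) ∧ ((1 / 2 : ℝ) ^ (l + 2) ≤ ‖Y b‖ ∧ ‖Y b‖ ≤ 2 * (1 / 2) ^ l)}

/-- the slab of a point -/
def Sly (b : Fin (k + 1)) (t : ℝ) : Set (Fin (k + 1) → ℂ) :=
  {Y | (1 / 2 ≤ nrm Y ∧ nrm Y ≤ 2) ∧ (t / 2 ≤ ‖Y b‖ ∧ ‖Y b‖ ≤ 2 * t)}

theorem Shl_closed : IsClosed (Shl k) := by
  have h1 : IsClosed {Y : Fin (k + 1) → ℂ | 1 / 2 ≤ nrm Y} :=
    isClosed_le continuous_const z_nrm_cont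
  have h2 : IsClosed {Y : Fin (k + 1) → ℂ | nrm Y ≤ 2} :=
    isClosed_le z_nrm_cont continuous_const
  exact h1.inter h2

theorem Slb_closed (b : Fin (k + 1)) (l : ℕ) : IsClosed (Slb b l) := by
  have h1 : IsClosed {Y : Fin (k + 1) → ℂ | (1 / 2 : ℝ) ^ (l + 2) ≤ ‖Y b‖} :=
    isClosed_le continuous_const (continuous_norm.comp (continuous_apply b))
  have h2 : IsClosed {Y : Fin (k + 1) → ℂ | ‖Y b‖ ≤ 2 * (1 / 2) ^ l} :=
    isClosed_le (continuous_norm.comp (continuous_apply b)) continuous_const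
  exact Shl_closed.inter (h1.inter h2)

theorem Shl_ne {Y : Fin (k + 1) → ℂ} (hY : Y ∈ Shl k) : Y ≠ 0 := by
  rintro rfl
  have h1 : nrm (0 : Fin (k + 1) → ℂ) = 0 := by unfold nrm nsq; simp
  have h2 : (1 : ℝ) / 2 ≤ nrm (0 : Fin (k + 1) → ℂ) := hY.1
  rw [h1] at h2
  norm_num at h2

theorem Shl_compact : IsCompact (Shl k) := by
  refine IsCompact.of_isClosed_subset (isCompact_closedBall (0 : Fin (k + 1) → ℂ) 2)
    Shl_closed ?_
  intro Y hY
  rw [mem_closedBall_zero_iff, pi_norm_le_iff_of_nonneg (by norm_num)]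
  exact fun i => (z_coord Y i).trans hY.2

theorem hW_le {N s : ℕ} (w : (Fin s → Fin N) → ℝ) (S : Form (Fin N) s) (Y : Fin N → ℂ) :
    hW w S Y ≤ ENNReal.ofReal (trW w (S Y)) := by
  unfold hW
  by_cases hY : Y ∈ ({0}ᶜ : Set (Fin N → ℂ))
  · rw [Set.indicator_of_mem hY]
  · rw [Set.indicator_of_notMem hY]
    exact bot_le

/-- the slabs overlap at most four times -/
theorem slab_sum (b : Fin (k + 1)) (L : ℕ) {h : (Fin (k + 1) → ℂ) → ENNReal}
    (hh : Measurable h) :
    ∑ l ∈ Finset.range L, ∫⁻ Y in Slb b l, h Y ≤ 4 * ∫⁻ Y in Shl k, h Y := by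
  have e1 : ∀ l ∈ Finset.range L, ∫⁻ Y in Slb b l, h Y =
      ∫⁻ Y, Set.indicator (Slb b l) h Y := fun l _ => by
    rw [lintegral_indicator (Slb_closed b l).measurableSet]
  rw [Finset.sum_congr rfl e1, ← lintegral_finsetSum _ (fun l _ =>
    hh.indicator (Slb_closed b l).measurableSet)]
  rw [← lintegral_indicator Shl_closed.measurableSet, ← lintegral_const_mul _
    (hh.indicator Shl_closed.measurableSet)]
  refine lintegral_mono fun Y => ?_
  classical
  have e2 : ∑ l ∈ Finset.range L, Set.indicator (Slb b l) h Y =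
      ∑ l ∈ (Finset.range L).filter (fun l => Y ∈ Slb b l), h Y := by
    rw [Finset.sum_filter]
    refine Finset.sum_congr rfl fun l _ => ?_
    by_cases hl : Y ∈ Slb b l
    · rw [Set.indicator_of_mem hl, if_pos hl]
    · rw [Set.indicator_of_notMem hl, if_neg hl]
  rw [e2, Finset.sum_const, nsmul_eq_mul]
  rcases Finset.eq_empty_or_nonempty ((Finset.range L).filter (fun l => Y ∈ Slb b l)) with
    h0 | h0
  · rw [h0]
    simp
  · have hc : ((Finset.range L).filter (fun l => Y ∈ Slb b l)).card ≤ 4 := by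
      obtain ⟨l0, hl0, hmin⟩ := Finset.exists_min_image _ (fun l : ℕ => l) h0
      have hsub : (Finset.range L).filter (fun l => Y ∈ Slb b l) ⊆
          Finset.Icc l0 (l0 + 3) := by
        intro l hl
        rw [Finset.mem_Icc]
        refine ⟨hmin l hl, ?_⟩
        by_contra hlt
        push Not at hlt
        have h1 : (1 / 2 : ℝ) ^ (l0 + 2) ≤ ‖Y b‖ := (Finset.mem_filter.1 hl0).2.2.1
        have h2 : ‖Y b‖ ≤ 2 * (1 / 2 : ℝ) ^ l := (Finset.mem_filter.1 hl).2.2.2
        have h3 : (1 / 2 : ℝ) ^ l ≤ (1 / 2 : ℝ) ^ (l0 + 4) :=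
          pow_le_pow_of_le_one (by norm_num) (by norm_num) (by omega)
        have h4 : (1 / 2 : ℝ) ^ (l0 + 4) = (1 / 2 : ℝ) ^ (l0 + 2) * (1 / 4) := by
          rw [show l0 + 4 = l0 + 2 + 2 by omega, pow_add _ (l0 + 2) 2]
          norm_num
        have h5 : (0 : ℝ) < (1 / 2 : ℝ) ^ (l0 + 2) := by positivity
        rw [h4] at h3
        linarith
      have h6 := Finset.card_le_card hsub
      rw [Nat.card_Icc] at h6
      omega
    obtain ⟨l1, hl1⟩ := h0
    have hY : Y ∈ Shl k := (Finset.mem_filter.1 hl1).2.1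
    rw [Set.indicator_of_mem hY]
    gcongr
    exact_mod_cast hc

end

end Pool.Agent.H38.EM
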