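import Pool.Agent.H38.EM.MSZ3

/-!
# Row MSZ of the board `emd_modules`, part 4: bounds for the traces
-/

set_option autoImplicit false

namespace Pool.Agent.H38.EM

open scoped BigOperators ComplexConjugate ContDiff ComplexOrder
open MeasureTheory Pool.Agent.H92.EQ Pool.Agent.H92.EM

noncomputable section

variable {k m s q : ℕ}

/-- weights of the multi-indices without `b` -/
def wO (s : ℕ) (b : Fin (k + 1)) (I : Fin s → Fin (k + 1)) : ℝ :=
  if ∀ l, I l ≠ b then 1 else 0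

theorem trW_O (b : Fin (k + 1)) (T : (Fin s → Fin (k + 1)) → (Fin s → Fin (k + 1)) → ℂ) :
    trW (wO s b) T = trO b T := trW_b b T

/-- the traces, first form -/
theorem tr_first (hMBU : T_MBU) (hD13 : T_D13) {CC : ℝ} (hCC : 0 < CC)
    (hMSC : ∀ (S : Form (Fin (k + 1)) (s + 1))
      (A : Matrix (Fin (k + 1)) (Fin (k + 1)) ℂ) (y : Fin (k + 1) → ℂ), Psd (S (A.mulVec y)) →
      (∀ i j, ‖A i j - (1 : Matrix (Fin (k + 1)) (Fin (k + 1)) ℂ) i j‖ ≤ 1) →
      0 ≤ Pool.Agent.H92.EHD.trF (pull (lin A) S y) ∧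
      Pool.Agent.H92.EHD.trF (pull (lin A) S y) ≤
        CC * Pool.Agent.H92.EHD.trF (S (A.mulVec y)) ∧
      ∀ b : Fin (k + 1), 0 ≤ trO b (pull (lin A) S y) ∧
        ((∀ j, j ≠ b → A b j = 0) → trO b (pull (lin A) S y) ≤ CC * trO b (S (A.mulVec y))))
    {S : Form (Fin (k + 1)) (s + 1)} (hS : ProjForm S) {y : Fin (k + 1) → ℂ} (hy : y ≠ 0) :
    (0 ≤ Pool.Agent.H92.EHD.trF (avS m S y) ∧
      ENNReal.ofReal (Pool.Agent.H92.EHD.trF (avS m S y)) ≤
      ENNReal.ofReal CC * ∫⁻ X : Fin (k + 1) → Fin (k + 1) → ℂ,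
        ENNReal.ofReal (bth (th0 k) X) * hW (fun _ => 1) S ((mX m X).mulVec y)) ∧
    ∀ b : Fin (k + 1), (b : ℕ) < m → 0 ≤ trO b (avS m S y) ∧
      ENNReal.ofReal (trO b (avS m S y)) ≤
      ENNReal.ofReal CC * ∫⁻ X : Fin (k + 1) → Fin (k + 1) → ℂ,
        ENNReal.ofReal (bth (th0 k) X) * hW (wO (s + 1) b) S ((mX m X).mulVec y) := by
  have hth : th0 k ≤ 1 := by
    unfold th0
    rw [div_le_one (by positivity)]
    have : (0 : ℝ) ≤ k := Nat.cast_nonneg k
    linarith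
  have hb : ∀ X ∈ Sm k, _ := fun X hX => hMSC S (mX m X) y (fun c => hS.cp.psd _ (mX_y hX hy) c)
    (fun i j => (mX_sub hX i j).trans hth)
  constructor
  · have h1 := av_tr_le (m := m) hMBU hD13 hS hy (fun _ => 1) hCC.le (fun X hX => by
      rw [trW_one, trW_one]
      exact ⟨(hb X hX).1, (hb X hX).2.1⟩)
    rwa [trW_one] at h1
  · intro b hbm
    have h1 := av_tr_le (m := m) hMBU hD13 hS hy (wO (s + 1) b) hCC.le (fun X hX => by
      rw [trW_O, trW_O]
      exact ⟨((hb X hX).2.2 b).1, ((hb X hX).2.2 b).2 fun j hj => mX_ne X b j hbm hj⟩)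
    rwa [trW_O] at h1

/-- a bound of the trace which depends on `S` -/
theorem tr_sup (hMBU : T_MBU) {S : Form (Fin (k + 1)) (s + 1)} (hS : ProjForm S) :
    ∃ B : ℝ, 0 ≤ B ∧ ∀ y : Fin (k + 1) → ℂ, nsq y = 1 →
      ∫⁻ X : Fin (k + 1) → Fin (k + 1) → ℂ,
        ENNReal.ofReal (bth (th0 k) X) * hW (fun _ => 1) S ((mX m X).mulVec y) ≤
        ENNReal.ofReal B := by
  have hc : ContinuousOn (fun Y => trW (fun _ => 1) (S Y)) (Shl k) := by
    unfold trW
    refine continuousOn_finsetSum _ fun I _ => ContinuousOn.mul continuousOn_const ?_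
    exact Complex.continuous_re.comp_continuousOn
      ((hS.cp.smooth I I).continuousOn.mono fun Y hY => Shl_ne hY)
  obtain ⟨B0, hB0⟩ := Shl_compact.exists_bound_of_continuousOn hc
  have hbi : Integrable (bth (th0 k) : (Fin (k + 1) → Fin (k + 1) → ℂ) → ℝ) := by
    have h1 : IntegrableOn (bth (th0 k) : (Fin (k + 1) → Fin (k + 1) → ℂ) → ℝ) (Sm k) :=
      (bth_cont hMBU).continuousOn.integrableOn_compact (Sm_compact k)
    rwa [integrableOn_iff_integrable_of_support_subset] at h1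
    intro X hX
    by_contra h
    exact hX (bth_supp hMBU h)
  refine ⟨max B0 0 * ∫ X : Fin (k + 1) → Fin (k + 1) → ℂ, bth (th0 k) X,
    mul_nonneg (le_max_right _ _) (integral_nonneg fun X => bth_nonneg hMBU X), ?_⟩
  intro y hy
  have hy0 : y ≠ 0 := by
    rintro rfl
    simp [nsq] at hy
  rw [ENNReal.ofReal_mul (le_max_right _ _), ofReal_integral_eq_lintegral_ofReal hbi
    (Filter.Eventually.of_forall fun X => bth_nonneg hMBU X),
    ← lintegral_const_mul _ (bth_cont hMBU).measurable.ennreal_ofReal]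
  refine lintegral_mono fun X => ?_
  by_cases hX : X ∈ Sm k
  · rw [mul_comm (ENNReal.ofReal (max B0 0))]
    gcongr
    refine (hW_le _ S _).trans (ENNReal.ofReal_le_ofReal ?_)
    have h1 := mX_nrm (m := m) hX y
    rw [z_nrm_one hy] at h1
    have h2 := hB0 ((mX m X).mulVec y) ⟨by linarith [h1.1], by linarith [h1.2]⟩
    rw [Real.norm_eq_abs] at h2
    exact (le_abs_self _).trans (h2.trans (le_max_left _ _))
  · simp only [bth_supp hMBU hX]
    simp

/-- from `ENNReal` to `ℝ` -/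
theorem toR {a : ℝ} {x : ENNReal} {b : ℝ} (hb : 0 ≤ b) (h : ENNReal.ofReal a ≤ x)
    (h' : x ≤ ENNReal.ofReal b) : a ≤ b :=
  (ENNReal.ofReal_le_ofReal_iff hb).1 (h.trans h')

end

end Pool.Agent.H38.EM
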