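import Pool.Agent.H38.EM.MSZ4

/-!
# Row MSZ of the board `emd_modules`, part 5: the unit sphere
-/

set_option autoImplicit false

namespace Pool.Agent.H38.EM

open scoped BigOperators ComplexConjugate ContDiff ComplexOrder
open MeasureTheory Pool.Agent.H92.EQ Pool.Agent.H92.EM

noncomputable section

/-- the bounds for the traces on the unit sphere -/
theorem tr_bounds (hMBU : T_MBU) (hMSB : T_MSB) (hMSC : T_MSC) (hMSD : T_MSD)
    (hD13 : T_D13) (m k s q : ℕ) (hk : s + 1 + q = k) (ε : ℝ) (hε : 0 < ε) :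
    ∃ C1 c1 : ℝ, 0 ≤ C1 ∧ 0 ≤ c1 ∧ ∀ S : Form (Fin (k + 1)) (s + 1), ProjForm S →
    0 ≤ mass q S →
    ∫⁻ Y in Shl k, hW (fun _ => 1) S Y ≤ ENNReal.ofReal (C1 * mass q S) ∧
    ∀ y : Fin (k + 1) → ℂ, nsq y = 1 →
    ((∀ i : Fin (k + 1), (i : ℕ) < m → ε ≤ ‖y i‖) →
      Pool.Agent.H92.EHD.trF (avS m S y) ≤ C1 * mass q S) ∧
    ∀ b : Fin (k + 1), (b : ℕ) < m → y b ≠ 0 →
      (∀ i : Fin (k + 1), (i : ℕ) < m → i ≠ b → ε ≤ ‖y i‖) →
      trO b (avS m S y) ≤ C1 * mass q S ∧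
      ∀ l : ℕ, (1 / 2 : ℝ) ^ (l + 1) < ‖y b‖ → ‖y b‖ ≤ (1 / 2 : ℝ) ^ l →
        ((1 / 2 : ℝ) ^ l) ^ 2 * Pool.Agent.H92.EHD.trF (avS m S y) ≤
          c1 * (∫⁻ Y in Slb b l, hW (fun _ => 1) S Y).toReal := by
  obtain ⟨CB, hCB, hB⟩ := hMSB m k ε hε
  obtain ⟨CC, hCC, hC⟩ := hMSC k (s + 1)
  obtain ⟨CD, hCD, hD⟩ := hMSD k s q hk
  have hCB' : CB = ENNReal.ofReal CB.toReal := (ENNReal.ofReal_toReal hCB).symm
  have hB0 : 0 ≤ CB.toReal := ENNReal.toReal_nonneg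
  obtain ⟨B, hBdef⟩ : ∃ B, B = CB.toReal := ⟨_, rfl⟩
  rw [← hBdef] at hCB' hB0
  refine ⟨CC * B * CD + CD, CC * (4 * B), by positivity, by positivity, ?_⟩
  intro S hS hM
  obtain ⟨hD1, hD2⟩ := hD S hS
  obtain ⟨M, hMd⟩ : ∃ M, M = mass q S := ⟨_, rfl⟩
  rw [← hMd] at hD1 hD2 hM ⊢
  have hshell : ∫⁻ Y in Shl k, hW (fun _ => 1) S Y ≤ ENNReal.ofReal (CD * M) := by
    refine le_trans (lintegral_mono fun Y => ?_) hD1
    have := hW_le (fun _ => 1) S Y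
    rwa [trW_one] at this
  have hx0 : 0 ≤ CC * B * CD * M := by positivity
  refine ⟨hshell.trans (ENNReal.ofReal_le_ofReal (by nlinarith)), ?_⟩
  intro y hy
  have hy0 : y ≠ 0 := by
    rintro rfl
    simp [nsq] at hy
  obtain ⟨⟨_, hF⟩, hO⟩ := tr_first (m := m) hMBU hD13 hCC hC hS hy0
  constructor
  · intro hall
    have h1 := (hB y hy (hW (fun _ => 1) S) (hW_meas _ hS)).1 hall
    have h2 : ENNReal.ofReal CC * ∫⁻ X : Fin (k + 1) → Fin (k + 1) → ℂ,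
        ENNReal.ofReal (bth (th0 k) X) * hW (fun _ => 1) S ((mX m X).mulVec y) ≤
        ENNReal.ofReal (CC * (B * (CD * M))) := by
      rw [ENNReal.ofReal_mul hCC.le, ENNReal.ofReal_mul hB0, ← hCB']
      gcongr
      exact h1.trans (by gcongr; exact hshell)
    have h3 := toR (by positivity) hF h2
    nlinarith [mul_nonneg hCD.le hM]
  · intro b hbm hyb hoth
    have hn0 : 0 < ‖y b‖ := norm_pos_iff.2 hyb
    have hn1 : ‖y b‖ ≤ 1 := (z_coord y b).trans_eq (z_nrm_one hy)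
    constructor
    · have h1 := (hB y hy (hW (wO (s + 1) b) S) (hW_meas _ hS)).2 b hbm hyb hoth
      have h2 : ∫⁻ Y in Sly b ‖y b‖, hW (wO (s + 1) b) S Y ≤
          ENNReal.ofReal (CD * ‖y b‖ ^ 2 * M) := by
        refine le_trans (lintegral_mono fun Y => ?_) (hD2 b ‖y b‖ hn0 hn1)
        have := hW_le (wO (s + 1) b) S Y
        rwa [trW_O] at this
      have h3 : ENNReal.ofReal CC * ∫⁻ X : Fin (k + 1) → Fin (k + 1) → ℂ,
          ENNReal.ofReal (bth (th0 k) X) * hW (wO (s + 1) b) S ((mX m X).mulVec y) ≤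
          ENNReal.ofReal (CC * (B * ((‖y b‖ ^ 2)⁻¹ * (CD * ‖y b‖ ^ 2 * M)))) := by
        rw [ENNReal.ofReal_mul hCC.le, ENNReal.ofReal_mul hB0, ← hCB',
          ENNReal.ofReal_mul (by positivity)]
        gcongr
        exact h1.trans (by gcongr; exact h2)
      have h4 := toR (by positivity) (hO b hbm).2 h3
      have h5 : CC * (B * ((‖y b‖ ^ 2)⁻¹ * (CD * ‖y b‖ ^ 2 * M))) = CC * B * CD * M := by
        field_simp
      rw [h5] at h4
      nlinarith [mul_nonneg hCD.le hM]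
    · intro l hl1 hl2
      have h1 := (hB y hy (hW (fun _ => 1) S) (hW_meas _ hS)).2 b hbm hyb hoth
      have hsub : Sly b ‖y b‖ ⊆ Slb b l := by
        intro Y hY
        refine ⟨hY.1, ?_, ?_⟩
        · refine le_trans ?_ hY.2.1
          have : (1 / 2 : ℝ) ^ (l + 2) = (1 / 2) ^ (l + 1) / 2 := by ring
          rw [this]
          linarith
        · exact hY.2.2.trans (by linarith)
      have hsh : Slb b l ⊆ Shl k := fun Y hY => hY.1
      have hfin : ∫⁻ Y in Slb b l, hW (fun _ => 1) S Y ≠ ⊤ :=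
        (lt_of_le_of_lt ((lintegral_mono_set hsh).trans hshell) ENNReal.ofReal_lt_top).ne
      obtain ⟨g, hg⟩ : ∃ g, g = (∫⁻ Y in Slb b l, hW (fun _ => 1) S Y).toReal := ⟨_, rfl⟩
      have hg0 : 0 ≤ g := by rw [hg]; exact ENNReal.toReal_nonneg
      have hge : ∫⁻ Y in Slb b l, hW (fun _ => 1) S Y = ENNReal.ofReal g := by
        rw [hg, ENNReal.ofReal_toReal hfin]
      rw [← hg]
      have h2 : ∫⁻ Y in Sly b ‖y b‖, hW (fun _ => 1) S Y ≤ ENNReal.ofReal g := by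
        rw [← hge]
        exact lintegral_mono_set hsub
      have h3 : ENNReal.ofReal CC * ∫⁻ X : Fin (k + 1) → Fin (k + 1) → ℂ,
          ENNReal.ofReal (bth (th0 k) X) * hW (fun _ => 1) S ((mX m X).mulVec y) ≤
          ENNReal.ofReal (CC * (B * ((‖y b‖ ^ 2)⁻¹ * g))) := by
        rw [ENNReal.ofReal_mul hCC.le, ENNReal.ofReal_mul hB0, ← hCB',
          ENNReal.ofReal_mul (by positivity)]
        gcongr
        exact h1.trans (by gcongr; exact h2)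
      have h4 := toR (by positivity) hF h3
      have h5 : ((1 / 2 : ℝ) ^ l) ^ 2 * (‖y b‖ ^ 2)⁻¹ ≤ 4 := by
        rw [← div_eq_mul_inv, div_le_iff₀ (by positivity)]
        have h6 : (1 / 2 : ℝ) ^ (l + 1) = (1 / 2) ^ l / 2 := by ring
        rw [h6] at hl1
        have h7 : (0 : ℝ) < (1 / 2 : ℝ) ^ l := by positivity
        nlinarith
      calc ((1 / 2 : ℝ) ^ l) ^ 2 * Pool.Agent.H92.EHD.trF (avS m S y) ≤
          ((1 / 2 : ℝ) ^ l) ^ 2 * (CC * (B * ((‖y b‖ ^ 2)⁻¹ * g))) :=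
            mul_le_mul_of_nonneg_left h4 (by positivity)
        _ = CC * B * g * (((1 / 2 : ℝ) ^ l) ^ 2 * (‖y b‖ ^ 2)⁻¹) := by ring
        _ ≤ CC * B * g * 4 := mul_le_mul_of_nonneg_left h5 (by positivity)
        _ = CC * (4 * B) * g := by ring

end

end Pool.Agent.H38.EM
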