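import Pool.Agent.H38.EM.MSZ5

/-!
# Row MSZ of the board `emd_modules`, part 6: the family, sums
-/

set_option autoImplicit false

namespace Pool.Agent.H38.EM

open scoped BigOperators ComplexConjugate ContDiff ComplexOrder
open MeasureTheory Pool.Agent.H92.EQ Pool.Agent.H92.EM

noncomputable section

variable {k m s q : ℕ}

theorem pot_wH (hL5 : T_L5) (b : Fin (k + 1)) {δ : ℝ} (hδ : 0 < δ) :
    Pot (wH (k := k) b δ) := by
  have h1 := hL5 (k + 1) 1 (MvPolynomial.X b) δ le_rfl (MvPolynomial.isHomogeneous_X ℂ b) hδ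
  have e : (fun z : Fin (k + 1) → ℂ => (1 / (2 * (1 : ℕ) : ℝ)) *
      Real.log (‖MvPolynomial.eval z (MvPolynomial.X b : MvPolynomial (Fin (k + 1)) ℂ)‖ ^ 2 +
        δ ^ 2 * nsq z ^ 1)) = wH b δ := by
    funext z
    unfold wH
    rw [MvPolynomial.eval_X, pow_one]
    norm_num
  rwa [e] at h1

theorem tf_pf (hL5 : T_L5) (hD6 : T_D6) (hD7 : T_D7) (b : Fin (k + 1)) {δ : ℝ} (hδ : 0 < δ) :
    ProjForm (TF s b δ) :=
  hD6 (k + 1) s (om (k + 1) s) (wH b δ) (hD7 (k + 1) s).1 (pot_wH hL5 b hδ)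

/-- vanishing far from the support -/
theorem av_zero (hMBU : T_MBU) (hD13 : T_D13) {κ : ℝ} {p : ℕ} {S : Form (Fin (k + 1)) p}
    (hK : InK (Zk m κ) S) {y : Fin (k + 1) → ℂ} (hy : nsq y = 1) {i j : Fin (k + 1)}
    (hi : (i : ℕ) < m) (hj : (j : ℕ) < m) (hij : i ≠ j)
    (hyi : ‖y i‖ < Real.exp (-(max κ 0 + 1))) (hyj : ‖y j‖ < Real.exp (-(max κ 0 + 1)))
    (I J : Fin p → Fin (k + 1)) : avS m S y I J = 0 := by
  have hy0 : y ≠ 0 := by
    rintro rfl
    simp [nsq] at hy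
  unfold avS
  have e : (fun X : Fin (k + 1) → Fin (k + 1) → ℂ =>
      ((bth (th0 k) X : ℝ) : ℂ) * pull (lin (mX m X)) S y I J) = fun _ => 0 := by
    funext X
    by_cases hX : X ∈ Sm k
    · have hY : (mX m X).mulVec y ∉ Zk m κ := by
        intro hZ
        have h1 := hZ i j hi hj hij
        have h2 := mX_low (m := m) hX y i hi
        have h3 := mX_low (m := m) hX y j hj
        have h4 := (mX_nrm (m := m) hX y).1
        rw [z_nrm_one hy] at h4
        obtain ⟨ε, hε⟩ : ∃ ε, ε = Real.exp (-(max κ 0 + 1)) := ⟨_, rfl⟩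
        rw [← hε] at hyi hyj
        have hε0 : 0 < ε := by rw [hε]; exact Real.exp_pos _
        have h5 : 2 * ε ≤ Real.exp (-κ) := by
          have h6 : Real.exp (-κ) ≥ Real.exp (-(max κ 0)) :=
            Real.exp_le_exp.2 (neg_le_neg (le_max_left _ _))
          have h7 : Real.exp (-(max κ 0)) = ε * Real.exp 1 := by
            rw [hε, ← Real.exp_add]
            congr 1
            ring
          have h8 : (2 : ℝ) ≤ Real.exp 1 := by
            have := Real.add_one_le_exp (1 : ℝ)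
            linarith
          rw [h7] at h6
          nlinarith
        have h9 : max ‖(mX m X).mulVec y i‖ ‖(mX m X).mulVec y j‖ ≤ 9 / 8 * ε :=
          max_le (by linarith) (by linarith)
        have h10 : 2 * ε * (7 / 8) ≤ Real.exp (-κ) * nrm ((mX m X).mulVec y) := by
          have : 0 ≤ nrm ((mX m X).mulVec y) := Real.sqrt_nonneg _
          nlinarith
        linarith
      have h1 : pull (lin (mX m X)) S y I J = 0 := by
        unfold pull
        refine Finset.sum_eq_zero fun I' _ => Finset.sum_eq_zero fun J' _ => ?_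
        rw [(hD13 (k + 1) (mX m X) 1 y).1, hK _ (mX_y hX hy0) hY I' J']
        ring
      rw [h1, mul_zero]
    · simp [bth_supp hMBU hX]
  rw [e]
  simp

/-- the masses of the slabs, as real numbers -/
def gS (S : Form (Fin (k + 1)) (s + 1)) (b : Fin (k + 1)) (l : ℕ) : ℝ :=
  (∫⁻ Y in Slb b l, hW (fun _ => 1) S Y).toReal

theorem gS_nonneg (S : Form (Fin (k + 1)) (s + 1)) (b : Fin (k + 1)) (l : ℕ) : 0 ≤ gS S b l :=
  ENNReal.toReal_nonneg

theorem gS_fin {S : Form (Fin (k + 1)) (s + 1)} {B : ℝ}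
    (h : ∫⁻ Y in Shl k, hW (fun _ => 1) S Y ≤ ENNReal.ofReal B) (b : Fin (k + 1)) (l : ℕ) :
    ∫⁻ Y in Slb b l, hW (fun _ => 1) S Y ≠ ⊤ :=
  (lt_of_le_of_lt ((lintegral_mono_set (fun _ hY => hY.1)).trans h)
    ENNReal.ofReal_lt_top).ne

theorem gS_sum {S : Form (Fin (k + 1)) (s + 1)} (hS : ProjForm S) {B : ℝ} (hB : 0 ≤ B)
    (h : ∫⁻ Y in Shl k, hW (fun _ => 1) S Y ≤ ENNReal.ofReal B) (b : Fin (k + 1)) (L : ℕ) :
    ∑ l ∈ Finset.range L, gS S b l ≤ 4 * B := by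
  unfold gS
  rw [← ENNReal.toReal_sum (fun l _ => gS_fin h b l)]
  refine ENNReal.toReal_le_of_le_ofReal (by positivity) ?_
  refine (slab_sum b L (hW_meas _ hS)).trans ?_
  rw [ENNReal.ofReal_mul (by norm_num)]
  have : ENNReal.ofReal 4 = 4 := by norm_num
  rw [this]
  gcongr

theorem gS_wsum {S : Form (Fin (k + 1)) (s + 1)} {B D : ℝ} (hD : 0 ≤ D)
    (h : ∫⁻ Y in Shl k, hW (fun _ => 1) S Y ≤ ENNReal.ofReal B) (b : Fin (k + 1)) (L : ℕ)
    (h2 : ∑ l ∈ Finset.range L, ENNReal.ofReal (l + 1) *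
        ∫⁻ Y in {Y : Fin (k + 1) → ℂ | (1 / 2 ≤ nrm Y ∧ nrm Y ≤ 2) ∧
          ((1 / 2 : ℝ) ^ (l + 2) ≤ ‖Y b‖ ∧ ‖Y b‖ ≤ 2 * (1 / 2) ^ l)},
          ENNReal.ofReal (Pool.Agent.H92.EHD.trF (S Y)) ≤ ENNReal.ofReal D) :
    ∑ l ∈ Finset.range L, ((l : ℝ) + 1) * gS S b l ≤ D := by
  have e : ∀ l ∈ Finset.range L, ((l : ℝ) + 1) * gS S b l =
      (ENNReal.ofReal ((l : ℝ) + 1) * ∫⁻ Y in Slb b l, hW (fun _ => 1) S Y).toReal := by
    intro l _
    rw [ENNReal.toReal_mul, ENNReal.toReal_ofReal (by positivity)]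
    rfl
  rw [Finset.sum_congr rfl e, ← ENNReal.toReal_sum (fun l _ =>
    ENNReal.mul_ne_top ENNReal.ofReal_ne_top (gS_fin h b l))]
  refine ENNReal.toReal_le_of_le_ofReal hD (le_trans ?_ h2)
  refine Finset.sum_le_sum fun l _ => ?_
  refine mul_le_mul' le_rfl (lintegral_mono fun Y => ?_)
  have := hW_le (fun _ => 1) S Y
  rwa [trW_one] at this

/-- the coefficients -/
def cN (S : Form (Fin (k + 1)) (s + 1)) (a c : ℝ) (L : ℕ) (b : Fin (k + 1)) (l : ℕ) : ℝ :=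
  if l < L then a * gS S b l else c

theorem cN_sum {S : Form (Fin (k + 1)) (s + 1)} {a c G D : ℝ} {L : ℕ} (ha : 0 ≤ a)
    (hc : 0 ≤ c) (hcL : c * (L + 1) ≤ 1) (b : Fin (k + 1))
    (h1 : ∑ l ∈ Finset.range L, gS S b l ≤ G)
    (h2 : ∑ l ∈ Finset.range L, ((l : ℝ) + 1) * gS S b l ≤ D) :
    ∑ l : Fin (L + 1), cN S a c L b l ≤ a * G + 1 ∧
    ∑ l : Fin (L + 1), cN S a c L b l * Real.log (1 / (1 / 2 : ℝ) ^ (l : ℕ)) ≤ a * D + 1 := by
  have hc1 : c ≤ 1 := by
    have : (0 : ℝ) ≤ L := Nat.cast_nonneg L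
    nlinarith
  constructor
  · rw [← Finset.sum_range (fun l => cN S a c L b l), Finset.sum_range_succ]
    have e1 : ∑ l ∈ Finset.range L, cN S a c L b l = a * ∑ l ∈ Finset.range L, gS S b l := by
      rw [Finset.mul_sum]
      refine Finset.sum_congr rfl fun l hl => ?_
      unfold cN
      rw [if_pos (Finset.mem_range.1 hl)]
    have e2 : cN S a c L b L = c := by
      unfold cN
      rw [if_neg (lt_irrefl L)]
    rw [e1, e2]
    have := mul_le_mul_of_nonneg_left h1 ha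
    linarith
  · rw [← Finset.sum_range (fun l => cN S a c L b l * Real.log (1 / (1 / 2 : ℝ) ^ l)),
      Finset.sum_range_succ]
    have hlog : ∀ l : ℕ, 0 ≤ Real.log (1 / (1 / 2 : ℝ) ^ l) ∧
        Real.log (1 / (1 / 2 : ℝ) ^ l) ≤ (l : ℝ) + 1 := by
      intro l
      have e3 : Real.log (1 / (1 / 2 : ℝ) ^ l) = l * Real.log 2 := by
        rw [one_div, one_div, inv_pow, inv_inv, Real.log_pow]
      have e4 : Real.log 2 ≤ 1 := by
        have := Real.log_two_lt_d9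
        linarith
      have e5 : 0 ≤ Real.log 2 := Real.log_nonneg (by norm_num)
      have e6 : (0 : ℝ) ≤ l := Nat.cast_nonneg l
      rw [e3]
      constructor
      · positivity
      · nlinarith
    have e1 : ∑ l ∈ Finset.range L, cN S a c L b l * Real.log (1 / (1 / 2 : ℝ) ^ l) ≤
        a * ∑ l ∈ Finset.range L, ((l : ℝ) + 1) * gS S b l := by
      rw [Finset.mul_sum]
      refine Finset.sum_le_sum fun l hl => ?_
      unfold cN
      rw [if_pos (Finset.mem_range.1 hl)]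
      have h3 : a * gS S b l * Real.log (1 / (1 / 2 : ℝ) ^ l) ≤
          a * gS S b l * ((l : ℝ) + 1) :=
        mul_le_mul_of_nonneg_left (hlog l).2 (mul_nonneg ha (gS_nonneg S b l))
      refine h3.trans (le_of_eq ?_)
      ring
    have e2 : cN S a c L b L = c := by
      unfold cN
      rw [if_neg (lt_irrefl L)]
    rw [e2]
    have h4 := mul_le_mul_of_nonneg_left h2 ha
    have h5 := mul_le_mul_of_nonneg_left (hlog L).2 hc
    linarith

/-- a small last slab -/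
theorem choose_L (K : ℝ) (hK : 0 ≤ K) : ∃ L : ℕ, K * ((1 / 2 : ℝ) ^ L) ^ 2 * (L + 1) ≤ 1 := by
  obtain ⟨L, hL⟩ := exists_pow_lt_of_lt_one (show (0 : ℝ) < 1 / (K + 1) by positivity)
    (show (1 / 2 : ℝ) < 1 by norm_num)
  refine ⟨L, ?_⟩
  have h1 : ((L : ℝ) + 1) * (1 / 2 : ℝ) ^ L ≤ 1 := by
    have h2 : (L : ℝ) + 1 ≤ 2 ^ L := by
      have := Nat.lt_two_pow_self (n := L)
      exact_mod_cast this
    rw [one_div, inv_pow]
    rw [← div_eq_mul_inv, div_le_one (by positivity)]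
    exact h2
  have h3 : K * (1 / 2 : ℝ) ^ L ≤ 1 := by
    rw [lt_div_iff₀ (by positivity)] at hL
    have : (0 : ℝ) < (1 / 2 : ℝ) ^ L := by positivity
    nlinarith
  have h4 : (0 : ℝ) < (1 / 2 : ℝ) ^ L := by positivity
  have h5 : K * ((1 / 2 : ℝ) ^ L) ^ 2 * (L + 1) =
      (K * (1 / 2 : ℝ) ^ L) * (((L : ℝ) + 1) * (1 / 2 : ℝ) ^ L) := by ring
  rw [h5]
  have h6 : 0 ≤ ((L : ℝ) + 1) * (1 / 2 : ℝ) ^ L := by positivity
  have h7 : 0 ≤ K * (1 / 2 : ℝ) ^ L := by positivity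
  nlinarith

end

end Pool.Agent.H38.EM
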